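import Pool.Agent.W2helper59.CW.Stm

/-!
# Project CW, piece SYM: probabilities and numbers of permutations
-/

set_option autoImplicit false

namespace Pool.Agent.W2helper24.CW

open MeasureTheory Set Pool.Agent.W2helper59.CW

/-- the chamber of `σ` -/
def Ch {n : ℕ} (σ : Equiv.Perm (Fin n)) : Set (Fin n → ℝ) := {u | ∀ i j, u i < u j ↔ σ i < σ j}

instance prob01 : IsProbabilityMeasure ((volume : Measure ℝ).restrict (Icc (0 : ℝ) 1)) :=
  ⟨by simp⟩

instance probMu (n : ℕ) : IsProbabilityMeasure (mu n) := by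
  unfold mu
  infer_instance

lemma meas_Ch {n : ℕ} (σ : Equiv.Perm (Fin n)) : MeasurableSet (Ch σ) := by
  have e : Ch σ = ⋂ i, ⋂ j, {u : Fin n → ℝ | u i < u j ↔ σ i < σ j} := by
    ext u
    simp only [Ch, Set.mem_ofPred_eq, Set.mem_iInter]
  rw [e]
  refine MeasurableSet.iInter fun i => MeasurableSet.iInter fun j => ?_
  by_cases h : σ i < σ j
  · simp only [h, iff_true]
    exact measurableSet_lt (measurable_pi_apply i) (measurable_pi_apply j)
  · simp only [h, iff_false]
    exact (measurableSet_lt (measurable_pi_apply i) (measurable_pi_apply j)).compl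

lemma perm_eq {n : ℕ} (σ τ : Equiv.Perm (Fin n)) (h : ∀ i j, σ i < σ j ↔ τ i < τ j) : σ = τ := by
  let e : Fin n ≃o Fin n :=
    { toEquiv := σ.symm.trans τ
      map_rel_iff' := by
        intro a b
        have := h (σ.symm b) (σ.symm a)
        simp only [Equiv.apply_symm_apply] at this
        simp only [Equiv.trans_apply]
        rw [← not_lt, ← not_lt, this] }
  have he : e = OrderIso.refl _ := Subsingleton.elim _ _
  ext i
  have h1 : e (σ i) = σ i := by rw [he]; rfl
  have h2 : e (σ i) = τ i := by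
    change τ (σ.symm (σ i)) = τ i
    rw [Equiv.symm_apply_apply]
  rw [← h1, h2]

lemma disj {n : ℕ} {σ τ : Equiv.Perm (Fin n)} (h : σ ≠ τ) : Disjoint (Ch σ) (Ch τ) := by
  rw [Set.disjoint_left]
  intro u h1 h2
  exact h (perm_eq σ τ fun i j => (h1 i j).symm.trans (h2 i j))

lemma cover {n : ℕ} (u : Fin n → ℝ) (hu : Function.Injective u) : ∃ σ, u ∈ Ch σ := by
  have hm : StrictMono (u ∘ Tuple.sort u) :=
    (Tuple.monotone_sort u).strictMono_of_injective (hu.comp (Tuple.sort u).injective)
  refine ⟨(Tuple.sort u)⁻¹, fun i j => ?_⟩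
  have := hm.lt_iff_lt (a := (Tuple.sort u)⁻¹ i) (b := (Tuple.sort u)⁻¹ j)
  simpa using this

lemma null (n : ℕ) : mu n {u | ¬ Function.Injective u} = 0 := by
  have h1 : mu n = (volume : Measure (Fin n → ℝ)).restrict
      (Set.pi univ fun _ => Icc (0 : ℝ) 1) := by
    unfold mu
    rw [← Measure.restrict_pi_pi]
    rfl
  have h2 : ∀ i j : Fin n, i ≠ j → (volume : Measure (Fin n → ℝ)) {u | u i = u j} = 0 := by
    intro i j hij
    let L : Submodule ℝ (Fin n → ℝ) :=
      LinearMap.ker ((LinearMap.proj i : (Fin n → ℝ) →ₗ[ℝ] ℝ) - LinearMap.proj j)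
    have hL : L ≠ ⊤ := by
      intro htop
      have h3 : Pi.single i (1 : ℝ) ∈ L := by rw [htop]; trivial
      simp only [L, LinearMap.mem_ker, LinearMap.sub_apply, LinearMap.proj_apply,
        Pi.single_eq_same, Pi.single_eq_of_ne hij.symm] at h3
      norm_num at h3
    have h4 := Measure.addHaar_submodule (volume : Measure (Fin n → ℝ)) L hL
    have e : {u : Fin n → ℝ | u i = u j} = (L : Set (Fin n → ℝ)) := by
      ext u
      simp only [L, Set.mem_ofPred_eq, SetLike.mem_coe, LinearMap.mem_ker, LinearMap.sub_apply,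
        LinearMap.proj_apply, sub_eq_zero]
    rw [e]
    exact h4
  rw [h1]
  refine le_antisymm ((Measure.restrict_apply_le _ _).trans (le_of_eq ?_)) zero_le
  refine measure_mono_null (t := ⋃ i : Fin n, ⋃ j : Fin n, ⋃ _ : i ≠ j,
    {u : Fin n → ℝ | u i = u j}) ?_ ?_
  · intro u hu
    simp only [Function.Injective, not_forall, Set.mem_ofPred_eq] at hu
    obtain ⟨i, j, h5, h6⟩ := hu
    simp only [Set.mem_iUnion]
    exact ⟨i, j, h6, h5⟩
  · exact measure_iUnion_null fun i => measure_iUnion_null fun j =>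
      measure_iUnion_null fun h => h2 i j h

lemma same {n : ℕ} (σ : Equiv.Perm (Fin n)) : mu n (Ch σ) = mu n (Ch (1 : Equiv.Perm (Fin n))) := by
  have hp := measurePreserving_piCongrLeft
    (fun _ : Fin n => (volume : Measure ℝ).restrict (Icc (0 : ℝ) 1)) σ
  have h1 := hp.measure_preimage (meas_Ch (1 : Equiv.Perm (Fin n))).nullMeasurableSet
  have h2 : (MeasurableEquiv.piCongrLeft (fun _ : Fin n => ℝ) σ) ⁻¹'
      (Ch (1 : Equiv.Perm (Fin n))) = Ch σ := by
    ext u
    have h3 : ∀ i, (MeasurableEquiv.piCongrLeft (fun _ : Fin n => ℝ) σ) u (σ i) = u i :=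
      fun i => Equiv.piCongrLeft_apply_apply (fun _ : Fin n => ℝ) σ u i
    constructor
    · intro h i j
      have := h (σ i) (σ j)
      rw [h3, h3] at this
      exact this
    · intro h i j
      obtain ⟨i', rfl⟩ := σ.surjective i
      obtain ⟨j', rfl⟩ := σ.surjective j
      rw [h3, h3]
      exact h i' j'
  rw [h2] at h1
  exact h1

lemma event {n : ℕ} (A : Finset (Equiv.Perm (Fin n))) (E : Set (Fin n → ℝ))
    (hE : ∀ σ u, u ∈ Ch σ → (u ∈ E ↔ σ ∈ A)) :
    mu n E = A.card * mu n (Ch (1 : Equiv.Perm (Fin n))) := by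
  have h1 : mu n (⋃ σ ∈ A, Ch σ) = A.card * mu n (Ch (1 : Equiv.Perm (Fin n))) := by
    rw [measure_biUnion_finset (fun σ _ τ _ h => disj h) fun σ _ => meas_Ch σ,
      Finset.sum_congr rfl fun σ _ => same σ, Finset.sum_const, nsmul_eq_mul]
  rw [← h1]
  apply le_antisymm
  · have h2 : E ⊆ (⋃ σ ∈ A, Ch σ) ∪ {u | ¬ Function.Injective u} := by
      intro u hu
      by_cases hi : Function.Injective u
      · left
        obtain ⟨σ, hσ⟩ := cover u hi
        simp only [Set.mem_iUnion]
        exact ⟨σ, (hE σ u hσ).1 hu, hσ⟩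
      · right
        exact hi
    refine (measure_mono h2).trans ((measure_union_le _ _).trans ?_)
    rw [null, add_zero]
  · refine measure_mono ?_
    intro u hu
    simp only [Set.mem_iUnion] at hu
    obtain ⟨σ, h3, h4⟩ := hu
    exact (hE σ u h4).2 h3

lemma one {n : ℕ} : (n.factorial : ENNReal) * mu n (Ch (1 : Equiv.Perm (Fin n))) = 1 := by
  have h := event (Finset.univ : Finset (Equiv.Perm (Fin n))) univ (fun σ u _ => by simp)
  rw [measure_univ, Finset.card_univ, Fintype.card_perm, Fintype.card_fin] at h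
  exact h.symm

theorem p_sym : P_SYM := by
  intro m p n S
  classical
  have hocc : ∀ (σ : Equiv.Perm (Fin n)) (u : Fin n → ℝ), u ∈ Ch σ →
      (u ∈ {u : Fin n → ℝ | ∀ i ∈ S, Occ p u i} ↔
        σ ∈ Finset.univ.filter (fun σ : Equiv.Perm (Fin n) =>
          ∀ i ∈ S, Occ p (σ : Fin n → Fin n) i)) := by
    intro σ u hu
    simp only [Set.mem_ofPred_eq, Finset.mem_filter, Finset.mem_univ, true_and, Occ]
    refine forall_congr' fun i => forall_congr' fun _ => and_congr_right fun _ =>
      forall_congr' fun a => forall_congr' fun b => forall_congr' fun ha => forall_congr' fun hb =>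
      ?_
    rw [hu]
  have h1 := event _ _ hocc
  have h2 : cnt p n S = (Finset.univ.filter (fun σ : Equiv.Perm (Fin n) =>
      ∀ i ∈ S, Occ p (σ : Fin n → Fin n) i)).card := by
    unfold cnt
    congr
  rw [← h2] at h1
  have h3 := congrArg ENNReal.toReal (one (n := n))
  rw [ENNReal.toReal_mul, ENNReal.toReal_natCast, ENNReal.toReal_one] at h3
  unfold V Measure.real
  rw [h1, ENNReal.toReal_mul, ENNReal.toReal_natCast, mul_left_comm, h3, mul_one]

end Pool.Agent.W2helper24.CW
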